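import Pool.Agent.N332.GK.Defs

set_option autoImplicit false

/-! The quartic inequality for weights on classes (project GK, A2). -/

namespace Pool.Agent.N34.GK

open Finset Pool.Agent.N356.SP

section

variable {Γ : Type*} [AddCommGroup Γ] [DecidableEq Γ]

/-- nondegenerate pairs -/
abbrev nd (s t : Γ) : Prop := s ≠ t ∧ s ≠ -t

/-- the weight of the nondegenerate pairs with sum `d` -/
def NN (C : Finset Γ) (m : Γ → ℝ) (d : Γ) : ℝ :=
  ∑ s ∈ C, ∑ t ∈ C, if nd s t ∧ s + t = d then m s * m t else 0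

lemma NN_nonneg {C : Finset Γ} {m : Γ → ℝ} (hm : ∀ s, 0 ≤ m s) (d : Γ) : 0 ≤ NN C m d := by
  unfold NN
  refine Finset.sum_nonneg fun s _ => Finset.sum_nonneg fun t _ => ?_
  split_ifs
  · exact mul_nonneg (hm s) (hm t)
  · exact le_rfl

lemma fib (C : Finset Γ) (m f : Γ → ℝ) :
    ∑ s ∈ C, ∑ t ∈ C, (if nd s t then m s * m t * f (s + t) else 0) =
      ∑ d ∈ (C ×ˢ C).image (fun p => p.1 + p.2), f d * NN C m d := by
  unfold NN
  simp only [Finset.mul_sum]
  symm
  rw [Finset.sum_comm]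
  refine Finset.sum_congr rfl fun s hs => ?_
  rw [Finset.sum_comm]
  refine Finset.sum_congr rfl fun t ht => ?_
  have hD : s + t ∈ (C ×ˢ C).image (fun p => p.1 + p.2) :=
    Finset.mem_image.2 ⟨(s, t), Finset.mem_product.2 ⟨hs, ht⟩, rfl⟩
  rw [Finset.sum_eq_single (s + t)]
  · by_cases h : nd s t
    · rw [if_pos ⟨h, rfl⟩, if_pos h]
      ring
    · rw [if_neg (fun h' => h h'.1), if_neg h, mul_zero]
  · intro d _ hd
    rw [if_neg (fun h' => hd h'.2.symm), mul_zero]
  · intro h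
    exact absurd hD h

/-- a graph without triangles -/
lemma NN_le {C : Finset Γ} {θ : Γ → Γ → ℝ}
    (HM : ∀ (r : Γ → Γ → Prop) [DecidableRel r] (m : Γ → ℝ), (∀ s ∈ C, 0 ≤ m s) →
      (∀ s t, r s t → r t s) →
      (∀ s ∈ C, ∀ t ∈ C, ∀ u ∈ C, r s t → r t u → r s u → False) →
      ∑ s ∈ C, ∑ t ∈ C, (if r s t then m s * m t else 0) ≤ (∑ s ∈ C, m s) ^ 2 / 2)
    (h : GoodC C θ) {m : Γ → ℝ} (hm : ∀ s, 0 ≤ m s) (d : Γ) :
    NN C m d + NN C m (-d) ≤ (∑ s ∈ C, m s) ^ 2 / 2 := by
  by_cases hd : d = -d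
  · have h0 : NN C m d = 0 := by
      unfold NN
      refine Finset.sum_eq_zero fun s hs => Finset.sum_eq_zero fun t ht => ?_
      rw [if_neg]
      rintro ⟨⟨_, h2⟩, h3⟩
      have h4 := h.two s hs t ht (by rw [h3]; exact hd)
      exact h2 (eq_neg_of_add_eq_zero_left h4)
    rw [← hd, h0, add_zero]
    positivity
  · have key := HM (fun s t => nd s t ∧ (s + t = d ∨ s + t = -d)) m (fun s _ => hm s) (by
      rintro s t ⟨⟨h1, h2⟩, h3⟩
      refine ⟨⟨h1.symm, fun h4 => h2 (by rw [h4, neg_neg])⟩, ?_⟩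
      rw [add_comm t s]
      exact h3) (by
      rintro s _ t _ u _ ⟨⟨h1, _⟩, h2⟩ ⟨⟨h3, _⟩, h4⟩ ⟨⟨h5, _⟩, h6⟩
      have a1 : s + t = t + u → False := fun e => h5 (by
        rw [add_comm s t] at e
        exact add_left_cancel e)
      have a2 : s + t = s + u → False := fun e => h3 (add_left_cancel e)
      have a3 : t + u = s + u → False := fun e => h1 (add_right_cancel e).symm
      rcases h2 with h2 | h2 <;> rcases h4 with h4 | h4 <;> rcases h6 with h6 | h6
      · exact a1 (h2.trans h4.symm)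
      · exact a1 (h2.trans h4.symm)
      · exact a2 (h2.trans h6.symm)
      · exact a3 (h4.trans h6.symm)
      · exact a3 (h4.trans h6.symm)
      · exact a2 (h2.trans h6.symm)
      · exact a1 (h2.trans h4.symm)
      · exact a1 (h2.trans h4.symm))
    refine le_trans (le_of_eq ?_) key
    unfold NN
    rw [← Finset.sum_add_distrib]
    refine Finset.sum_congr rfl fun s _ => ?_
    rw [← Finset.sum_add_distrib]
    refine Finset.sum_congr rfl fun t _ => ?_
    by_cases h1 : nd s t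
    · by_cases h2 : s + t = d
      · rw [if_pos ⟨h1, h2⟩, if_neg (fun h' => hd (h2.symm.trans h'.2)), if_pos ⟨h1, Or.inl h2⟩,
          add_zero]
      · rw [if_neg (fun h' => h2 h'.2), zero_add]
        by_cases h3 : s + t = -d
        · rw [if_pos ⟨h1, h3⟩, if_pos ⟨h1, Or.inr h3⟩]
        · rw [if_neg (fun h' => h3 h'.2), if_neg]
          rintro ⟨_, h' | h'⟩
          · exact h2 h'
          · exact h3 h'
    · rw [if_neg (fun h' => h1 h'.1), if_neg (fun h' => h1 h'.1), if_neg (fun h' => h1 h'.1),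
        add_zero]

omit [DecidableEq Γ] in
lemma sum_neg {C : Finset Γ} (hC : ∀ s ∈ C, -s ∈ C) (g : Γ → ℝ) :
    ∑ t ∈ C, g (-t) = ∑ t ∈ C, g t :=
  Finset.sum_nbij' (fun t => -t) (fun t => -t) hC hC (fun t _ => neg_neg t)
    (fun t _ => neg_neg t) (fun _ _ => rfl)

/-- one term -/
lemma term {C : Finset Γ} {θ : Γ → Γ → ℝ} (h : GoodC C θ) {m : Γ → ℝ} (hm : ∀ s, 0 ≤ m s)
    {s t u v : Γ} (hs : s ∈ C) (ht : t ∈ C) (hu : u ∈ C) (hv : v ∈ C) (hst : nd s t) :
    (if s + t + u + v = 0 then θ s t * θ u v * (m s * m t * (m u * m v)) else 0) ≤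
      27 / 16 * (m s * m t) * (if nd u v ∧ u + v = -(s + t) then m u * m v else 0) +
      (θ s t ^ 2 - 27 / 16) * (m s * m t) * ((if u = -s ∧ v = -t then m u * m v else 0) +
        (if u = -t ∧ v = -s then m u * m v else 0)) := by
  have hX : 0 ≤ m s * m t * (m u * m v) :=
    mul_nonneg (mul_nonneg (hm s) (hm t)) (mul_nonneg (hm u) (hm v))
  obtain ⟨hst1, hst2⟩ := hst
  by_cases h0 : s + t + u + v = 0
  · have huv : u + v = -(s + t) := by
      rw [eq_neg_iff_add_eq_zero, ← h0]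
      abel
    rw [if_pos h0]
    by_cases h1 : nd u v
    · rw [if_pos ⟨h1, huv⟩]
      by_cases h2 : u = -s
      · have h3 : v = -t := by
          rw [h2] at huv
          have : v = -(s + t) + s := by rw [← huv]; abel
          rw [this]
          abel
        rw [if_pos ⟨h2, h3⟩, if_neg, h2, h3, h.even]
        · rw [add_zero]
          apply le_of_eq
          ring
        · rintro ⟨h4, _⟩
          rw [h2] at h4
          exact hst1 (neg_injective h4)
      · by_cases h3 : u = -t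
        · have h4 : v = -s := by
            rw [h3] at huv
            have : v = -(s + t) + t := by rw [← huv]; abel
            rw [this]
            abel
          rw [if_neg (fun h' => h2 h'.1), if_pos ⟨h3, h4⟩, h3, h4, h.symm (-s) (-t), h.even]
          rw [zero_add]
          apply le_of_eq
          ring
        · rw [if_neg (fun h' => h2 h'.1), if_neg (fun h' => h3 h'.1), add_zero, mul_zero, add_zero]
          have hq := h.quad s hs t ht u hu v hv h0 hst2 (fun e => h2 (by rw [e, neg_neg]))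
            (fun e => h3 (by
              have : u = -t + -(s + v) := by
                rw [eq_comm, ← sub_eq_zero]
                have : -t + -(s + v) - u = -(s + t + u + v) := by abel
                rw [this, h0, neg_zero]
              rw [this, e]
              simp)) (fun e => h3 (by rw [e, neg_neg]))
            (fun e => h2 (by
              have : u = -s + -(t + v) := by
                rw [eq_comm, ← sub_eq_zero]
                have : -s + -(t + v) - u = -(s + t + u + v) := by abel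
                rw [this, h0, neg_zero]
              rw [this, e]
              simp)) h1.2
          calc θ s t * θ u v * (m s * m t * (m u * m v)) ≤
                27 / 16 * (m s * m t * (m u * m v)) := mul_le_mul_of_nonneg_right hq hX
            _ = _ := by ring
    · have h2 : θ u v = 0 := by
        by_cases h3 : u = v
        · rw [h3, h.self]
        · have h4 : u = -v := by
            by_contra h5
            exact h1 ⟨h3, h5⟩
          rw [h4, h.symm, h.anti]
      rw [h2, if_neg (fun h' => h1 h'.1), if_neg, if_neg]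
      · simp
      · rintro ⟨h3, h4⟩
        apply h1
        rw [h3, h4]
        exact ⟨fun e => hst1 (neg_injective e).symm, fun e => hst2 (by
          rw [neg_neg] at e
          exact e.symm)⟩
      · rintro ⟨h3, h4⟩
        apply h1
        rw [h3, h4]
        exact ⟨fun e => hst1 (neg_injective e), fun e => hst2 (by
          rw [neg_neg] at e
          rw [← e, neg_neg])⟩
  · rw [if_neg h0, if_neg, if_neg, if_neg]
    · simp
    · rintro ⟨h3, h4⟩
      apply h0
      rw [h3, h4]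
      abel
    · rintro ⟨h3, h4⟩
      apply h0
      rw [h3, h4]
      abel
    · rintro ⟨_, h3⟩
      apply h0
      have : s + t + u + v = s + t + (u + v) := by abel
      rw [this, h3]
      abel

omit [AddCommGroup Γ] in
lemma sum_two {C : Finset Γ} {a b : Γ} (ha : a ∈ C) (hb : b ∈ C) (m : Γ → ℝ) :
    ∑ u ∈ C, ∑ v ∈ C, (if u = a ∧ v = b then m u * m v else 0) = m a * m b := by
  rw [Finset.sum_eq_single a]
  · rw [Finset.sum_eq_single b]
    · simp
    · intro v _ hv
      rw [if_neg (fun h' => hv h'.2)]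
    · intro h
      exact absurd hb h
  · intro u _ hu
    refine Finset.sum_eq_zero fun v _ => ?_
    rw [if_neg (fun h' => hu h'.1)]
  · intro h
    exact absurd ha h

/-- the inner sum -/
lemma inner {C : Finset Γ} {θ : Γ → Γ → ℝ} (h : GoodC C θ) {m : Γ → ℝ} (hm : ∀ s, 0 ≤ m s)
    {s t : Γ} (hs : s ∈ C) (ht : t ∈ C) :
    ∑ u ∈ C, ∑ v ∈ C,
        (if s + t + u + v = 0 then θ s t * θ u v * (m s * m t * (m u * m v)) else 0) ≤
      27 / 16 * (if nd s t then m s * m t * NN C m (-(s + t)) else 0) +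
      (if nd s t then (θ s t ^ 2 - 27 / 16) * (2 * (m s * m t * (m (-s) * m (-t)))) else 0) := by
  by_cases hst : nd s t
  · rw [if_pos hst, if_pos hst]
    refine (Finset.sum_le_sum fun u hu => Finset.sum_le_sum fun v hv =>
      term h hm hs ht hu hv hst).trans (le_of_eq ?_)
    simp only [Finset.sum_add_distrib, ← Finset.mul_sum, mul_add]
    rw [sum_two (h.neg s hs) (h.neg t ht), sum_two (h.neg t ht) (h.neg s hs)]
    unfold NN
    ring
  · rw [if_neg hst, if_neg hst]
    have h2 : θ s t = 0 := by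
      by_cases h3 : s = t
      · rw [h3, h.self]
      · have h4 : s = -t := by
          by_contra h5
          exact hst ⟨h3, h5⟩
        rw [h4, h.symm, h.anti]
    rw [h2]
    simp

/-- the antipodal quadruples -/
lemma antip {C : Finset Γ} {θ : Γ → Γ → ℝ} (h : GoodC C θ) {m : Γ → ℝ} (hm : ∀ s, 0 ≤ m s) :
    ∑ s ∈ C, ∑ t ∈ C, (if nd s t then
      (θ s t ^ 2 - 27 / 16) * (2 * (m s * m t * (m (-s) * m (-t)))) else 0) ≤ 0 := by
  refine Finset.sum_nonpos fun s hs => ?_
  have e := sum_neg h.neg (fun t => if nd s t then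
      (θ s t ^ 2 - 27 / 16) * (2 * (m s * m t * (m (-s) * m (-t)))) else 0)
  have e2 : ∑ t ∈ C, ((if nd s t then
      (θ s t ^ 2 - 27 / 16) * (2 * (m s * m t * (m (-s) * m (-t)))) else 0) +
      (if nd s (-t) then
      (θ s (-t) ^ 2 - 27 / 16) * (2 * (m s * m (-t) * (m (-s) * m (- -t)))) else 0)) ≤ 0 := by
    refine Finset.sum_nonpos fun t ht => ?_
    by_cases h1 : nd s t
    · have h2 : nd s (-t) := ⟨h1.2, by rw [neg_neg]; exact h1.1⟩
      rw [if_pos h1, if_pos h2, neg_neg]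
      have h3 := h.sq s hs t ht (fun e => h1.1 e.symm) (fun e => h1.2 (by rw [e, neg_neg]))
      have hX : 0 ≤ m s * m t * (m (-s) * m (-t)) :=
        mul_nonneg (mul_nonneg (hm s) (hm t)) (mul_nonneg (hm _) (hm _))
      have e3 : (θ s t ^ 2 - 27 / 16) * (2 * (m s * m t * (m (-s) * m (-t)))) +
          (θ s (-t) ^ 2 - 27 / 16) * (2 * (m s * m (-t) * (m (-s) * m t))) =
          (θ s t ^ 2 + θ s (-t) ^ 2 - 27 / 8) * (2 * (m s * m t * (m (-s) * m (-t)))) := by ring
      rw [e3]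
      exact mul_nonpos_of_nonpos_of_nonneg (by linarith) (by linarith)
    · have h2 : ¬ nd s (-t) := fun h' => h1 ⟨by
        have := h'.2
        rwa [neg_neg] at this, h'.1⟩
      rw [if_neg h1, if_neg h2, add_zero]
  rw [Finset.sum_add_distrib, e] at e2
  linarith

/-- all nondegenerate pairs -/
lemma pairs {C : Finset Γ} {θ : Γ → Γ → ℝ} (h : GoodC C θ) (m : Γ → ℝ) :
    ∑ s ∈ C, ∑ t ∈ C, (if nd s t then m s * m t * 1 else 0) ≤
      (∑ s ∈ C, m s) ^ 2 - 2 * ∑ s ∈ C, m s * m (-s) := by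
  have e1 : (∑ s ∈ C, m s) ^ 2 = ∑ s ∈ C, ∑ t ∈ C, (if nd s t then m s * m t * 1 else 0) +
      ∑ s ∈ C, m s ^ 2 + ∑ s ∈ C, m s * m (-s) := by
    rw [sq, Finset.sum_mul, ← Finset.sum_add_distrib, ← Finset.sum_add_distrib]
    refine Finset.sum_congr rfl fun s hs => ?_
    rw [Finset.mul_sum]
    have a1 : m s ^ 2 = ∑ t ∈ C, if t = s then m s * m t else 0 := by
      rw [Finset.sum_ite_eq' C s, if_pos hs]
      ring
    have a2 : m s * m (-s) = ∑ t ∈ C, if t = -s then m s * m t else 0 := by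
      rw [Finset.sum_ite_eq' C (-s), if_pos (h.neg s hs)]
    rw [a1, a2, ← Finset.sum_add_distrib, ← Finset.sum_add_distrib]
    refine Finset.sum_congr rfl fun t _ => ?_
    by_cases h1 : t = s
    · have h2 : t ≠ -s := by
        rw [h1]
        exact h.ne s hs
      rw [if_neg (fun h' => h'.1 h1.symm), if_pos h1, if_neg h2]
      ring
    · rw [if_neg h1]
      by_cases h2 : t = -s
      · rw [if_neg (fun h' => h'.2 (by rw [h2, neg_neg])), if_pos h2]
        ring
      · rw [if_pos ⟨fun e => h1 e.symm, fun e => h2 (by rw [e, neg_neg])⟩, if_neg h2]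
        ring
  have e2 : ∑ s ∈ C, m s * m (-s) ≤ ∑ s ∈ C, m s ^ 2 := by
    have e3 := sum_neg h.neg (fun t => m t ^ 2)
    have e4 : ∑ s ∈ C, m s * m (-s) ≤ ∑ s ∈ C, (m s ^ 2 + m (-s) ^ 2) / 2 :=
      Finset.sum_le_sum fun s _ => by nlinarith [sq_nonneg (m s - m (-s))]
    rw [← Finset.sum_div, Finset.sum_add_distrib, e3] at e4
    linarith
  linarith

/-- A2 -/
theorem wineq {C : Finset Γ} {θ : Γ → Γ → ℝ}
    (HM : ∀ (r : Γ → Γ → Prop) [DecidableRel r] (m : Γ → ℝ), (∀ s ∈ C, 0 ≤ m s) →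
      (∀ s t, r s t → r t s) →
      (∀ s ∈ C, ∀ t ∈ C, ∀ u ∈ C, r s t → r t u → r s u → False) →
      ∑ s ∈ C, ∑ t ∈ C, (if r s t then m s * m t else 0) ≤ (∑ s ∈ C, m s) ^ 2 / 2)
    (h : GoodC C θ) : ∀ m : Γ → ℝ, (∀ s, 0 ≤ m s) →
  2 * (∑ s ∈ C, m s) ^ 2 * ∑ s ∈ C, m s * m (-s) +
      64 / 27 * ∑ s ∈ C, ∑ t ∈ C, ∑ u ∈ C, ∑ v ∈ C,
        (if s + t + u + v = 0 then θ s t * θ u v * (m s * m t * (m u * m v)) else 0) ≤
    (∑ s ∈ C, m s) ^ 4 := by
  intro m hm
  obtain ⟨M, hM⟩ : ∃ M, M = ∑ s ∈ C, m s := ⟨_, rfl⟩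
  obtain ⟨A, hA⟩ : ∃ A, A = ∑ s ∈ C, m s * m (-s) := ⟨_, rfl⟩
  obtain ⟨Q', hQ'⟩ : ∃ Q', Q' = ∑ s ∈ C, ∑ t ∈ C,
    (if nd s t then m s * m t * NN C m (-(s + t)) else 0) := ⟨_, rfl⟩
  have h1 : ∑ s ∈ C, ∑ t ∈ C, ∑ u ∈ C, ∑ v ∈ C,
      (if s + t + u + v = 0 then θ s t * θ u v * (m s * m t * (m u * m v)) else 0) ≤
      27 / 16 * Q' := by
    have h2 := Finset.sum_le_sum fun s (hs : s ∈ C) => Finset.sum_le_sum fun t (ht : t ∈ C) =>
      inner h hm hs ht
    simp only [Finset.sum_add_distrib, ← Finset.mul_sum] at h2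
    have h3 := antip h hm
    rw [← hQ'] at h2
    linarith
  obtain ⟨D, hD⟩ : ∃ D, D = (C ×ˢ C).image (fun p : Γ × Γ => p.1 + p.2) := ⟨_, rfl⟩
  have hDneg : ∀ d ∈ D, -d ∈ D := by
    intro d hd
    rw [hD, Finset.mem_image] at hd ⊢
    obtain ⟨⟨s, t⟩, hst, rfl⟩ := hd
    rw [Finset.mem_product] at hst
    exact ⟨(-s, -t), Finset.mem_product.2 ⟨h.neg s hst.1, h.neg t hst.2⟩, by simp only; abel⟩
  have h4 : Q' = ∑ d ∈ D, NN C m (-d) * NN C m d := by
    rw [hQ', hD]
    exact fib C m (fun d => NN C m (-d))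
  have h5 : ∑ s ∈ C, ∑ t ∈ C, (if nd s t then m s * m t * 1 else 0) = ∑ d ∈ D, NN C m d := by
    have := fib C m (fun _ => 1)
    simp only [one_mul] at this
    rw [hD]
    exact this
  have h6 := pairs h m
  rw [h5, ← hM, ← hA] at h6
  have h7 : Q' ≤ M ^ 2 / 4 * ∑ d ∈ D, NN C m d := by
    have e1 := sum_neg hDneg (fun d => NN C m d)
    have e2 : ∑ d ∈ D, NN C m (-d) * NN C m d ≤
        ∑ d ∈ D, M ^ 2 / 8 * (NN C m d + NN C m (-d)) := by
      refine Finset.sum_le_sum fun d _ => ?_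
      have e3 := NN_le HM h hm d
      have e4 := NN_nonneg (C := C) hm d
      have e5 := NN_nonneg (C := C) hm (-d)
      rw [← hM] at e3
      nlinarith [sq_nonneg (NN C m d - NN C m (-d)),
        mul_le_mul_of_nonneg_right e3 (add_nonneg e4 e5)]
    rw [← Finset.mul_sum, Finset.sum_add_distrib, e1] at e2
    rw [h4]
    refine e2.trans (le_of_eq ?_)
    ring
  rw [← hM, ← hA]
  have h8 : M ^ 2 / 4 * ∑ d ∈ D, NN C m d ≤ M ^ 2 / 4 * (M ^ 2 - 2 * A) :=
    mul_le_mul_of_nonneg_left h6 (by positivity)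
  have h9 : 64 / 27 * ∑ s ∈ C, ∑ t ∈ C, ∑ u ∈ C, ∑ v ∈ C,
      (if s + t + u + v = 0 then θ s t * θ u v * (m s * m t * (m u * m v)) else 0) ≤ 4 * Q' := by
    linarith
  have h10 : 4 * (M ^ 2 / 4 * (M ^ 2 - 2 * A)) = M ^ 4 - 2 * M ^ 2 * A := by ring
  linarith

end

end Pool.Agent.N34.GK
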